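import Mathlib
import Pool.Agent.H86.Polar.Main

/-!
# The exponent of the p-root closure of polarizations is bounded uniformly in n

For a field `k` of characteristic `p > 0`, a finite group `G` and a finite-dimensional
`kG`-module `V = k^m` there is one `d` such that `f^(p^d)` lies in the algebra `P_n` generated by the
polarizations of `k[V]^G`, for all `n` and all `f ∈ k[V^n]^G`.

Outline of the proof.  Put `x_g = (g v)_r` etc.  `Good k p A c w` (file `Semi`) says that, for all
families of points `z_{l,i}` (`i ∈ A`, `l` in an arbitrary finite set of letters) over all rings of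
characteristic `p`, the algebra generated by the `z_{l,i}^{p^c}` over the algebra `PA` of
coefficients of `∏_{i ∈ A} (c_0 + ∑ c_l z_{l,i})` is contained in a `PA`-module generated by
products of boundedly many of the `z_{l,i}`.  It is proved by induction on `|A|` (files `LemmaA`,
`Step1`-`Step4`).  Applied to `A = G` it shows that every `f^{p^c}` is a `P_n`-combination of
polynomials which involve boundedly many vectors; taking an elementary symmetric function of
`p`-power degree over the group reduces the claim to invariants of boundedly many vectors, and for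
these the exponent exists because `k[V^N]` is integral over `P_N` and `P_N` separates orbits
(files `GR1`, `GR2`, `Inv2`).
-/

namespace Pool.Agent.Results.MP_d2bd57_al.UniformRoot

open Pool.Agent.H86.Polar

universe u v

/-- There is a single `d` with `f^(p^d) ∈ P_n` for all `n` and all `f ∈ k[V^n]^G`. -/
theorem result (p : ℕ) [Fact p.Prime] (k : Type u) [Field k] [CharP k p] (G : Type v) [Group G]
    [Finite G] (m : ℕ) (ρ : G →* Matrix.GeneralLinearGroup (Fin m) k) :
    ∃ d : ℕ, ∀ (n : ℕ) (S : Set (MvPolynomial (Fin m) k)), Algebra.adjoin k S = inv ρ →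
      ∀ f ∈ invD ρ (Fin n), f ^ p ^ d ∈ polAlg S (Fin n) := by
  classical
  cases nonempty_fintype G
  obtain ⟨d, hd⟩ := uniform ρ p
  refine ⟨d, fun n S hS f hf => ?_⟩
  rw [polAlg_eq ρ S hS]
  rcases Nat.eq_zero_or_pos n with rfl | hn
  · rw [MvPolynomial.eq_C_of_isEmpty f, ← map_pow]
    exact Subalgebra.algebraMap_mem _ _
  · have : Nonempty (Fin n) := ⟨⟨0, hn⟩⟩
    exact hd (Fin n) f hf

end Pool.Agent.Results.MP_d2bd57_al.UniformRoot
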